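import Mathlib

/-! Hexagons seen from a point of the six-pointed star: on the boundary of the parameter domain
two vertices lie on one ray, one at least twice as far as the other. -/

set_option autoImplicit false

namespace Pool.Agent.P.MP_e1e3b8_co.R

/-- The plane. -/
abbrev E := Fin 2 → ℝ

/-- First coordinates of the vertices of the lattice hexagon. -/
def cx : Fin 6 → ℝ := ![1, 0, -1, -1, 0, 1]

/-- Second coordinates of the vertices of the lattice hexagon. -/
def cy : Fin 6 → ℝ := ![0, 1, 1, 0, -1, -1]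

/-- The gauge of the six-pointed star. -/
noncomputable def gam (x y : ℝ) : ℝ := min (max (x + y) (max (-x) (-y))) (max (-(x + y)) (max x y))

/-- The vertices of the hexagon spanned by `p`, `q`, seen from the point `x p + y q`. -/
def W (p q : E) (x y : ℝ) (k : Fin 6) : E := (cx k - x) • p + (cy k - y) • q

/-- `u` is a multiple of `v` by a factor between zero and one half. -/
def G (u v : ℝ) : Prop := ∃ μ : ℝ, 0 ≤ μ ∧ μ ≤ 1 / 2 ∧ u = μ * v ∧ v ≠ 0

lemma G_pos {u v : ℝ} (h1 : 0 ≤ u) (h2 : 2 * u ≤ v) (h3 : 0 < v) : G u v :=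
  ⟨u / v, by positivity, by rw [div_le_iff₀ h3]; linarith, by field_simp, h3.ne'⟩

lemma G.neg {u v : ℝ} (h : G (-u) (-v)) : G u v := by
  obtain ⟨μ, a, b, c, d⟩ := h
  exact ⟨μ, a, b, by linarith, fun e => d (by rw [e, neg_zero])⟩

lemma G_neg {u v : ℝ} (h1 : u ≤ 0) (h2 : v ≤ 2 * u) (h3 : v < 0) : G u v :=
  G.neg (G_pos (by linarith) (by linarith) (by linarith))

lemma key {a b o : ℝ} (ha : 0 ≤ a) (hab : a ≤ b) (hb : 0 < b) (ho : 0 ≤ o) (hm : o ≤ a + 2 * b) :
    G (b - o) (-(a + b) - o) ∨ G (a - o) (-(a + b) - o) ∨ G (a - o) (a + b - o) := by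
  rcases le_total b o with h | h
  · exact Or.inl (G_neg (by linarith) (by linarith) (by linarith))
  rcases le_or_gt a o with h' | h'
  · exact Or.inr (Or.inl (G_neg (by linarith) (by linarith) (by linarith)))
  · exact Or.inr (Or.inr (G_pos (by linarith) (by linarith) (by linarith)))

lemma cyc0 (g : Fin 6 → ℝ) (h2 : ∀ j, g (j + 2) = g (j + 1) - g j) (hne : ∃ j, g j ≠ 0)
    (hmax : ∀ j, g j ≤ g 0) {o : ℝ} (ho : 0 ≤ o) (ht : ∃ j, o ≤ g j + g (j + 1)) :
    ∃ i j, G (g i - o) (g j - o) := by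
  have e2 : g 2 = g 1 - g 0 := h2 0
  have e3 : g 3 = g 2 - g 1 := h2 1
  have e4 : g 4 = g 3 - g 2 := h2 2
  have e5 : g 5 = g 4 - g 3 := h2 3
  have m1 := hmax 1
  have m5 := hmax 5
  have m3 := hmax 3
  have p0 : 0 < g 0 := by
    rcases (show 0 ≤ g 0 by linarith).eq_or_lt with e | e
    · obtain ⟨j, hj⟩ := hne
      exfalso; apply hj
      fin_cases j <;> simp only [Fin.zero_eta, Fin.mk_one, Fin.reduceFinMk] <;> linarith
    · exact e
  have s0 : g 0 = g 1 + g 5 := by linarith
  have s3 : g 3 = -(g 1 + g 5) := by linarith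
  have ht' : o ≤ g 0 + g 1 ∨ o ≤ g 0 + g 5 := by
    obtain ⟨j, hj⟩ := ht
    fin_cases j <;> simp only [Fin.zero_eta, Fin.mk_one, Fin.reduceFinMk, Fin.reduceAdd] at hj <;>
      first | (left; linarith) | (right; linarith)
  rcases le_total (g 1) (g 5) with h | h
  · rcases key (a := g 1) (b := g 5) (o := o) (by linarith) h (by linarith) ho
      (by rcases ht' with e | e <;> linarith) with k | k | k
    · exact ⟨5, 3, by rwa [s3]⟩
    · exact ⟨1, 3, by rwa [s3]⟩
    · exact ⟨1, 0, by rwa [s0]⟩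
  · rw [add_comm] at s0 s3
    rcases key (a := g 5) (b := g 1) (o := o) (by linarith) h (by linarith) ho
      (by rcases ht' with e | e <;> linarith) with k | k | k
    · exact ⟨1, 3, by rwa [s3]⟩
    · exact ⟨5, 3, by rwa [s3]⟩
    · exact ⟨5, 0, by rwa [s0]⟩

lemma cyc1 (h : Fin 6 → ℝ) (h2 : ∀ j, h (j + 2) = h (j + 1) - h j) (hne : ∃ j, h j ≠ 0)
    {o : ℝ} (ho : 0 ≤ o) (ht : ∃ j, o ≤ h j + h (j + 1)) : ∃ i j, G (h i - o) (h j - o) := by
  obtain ⟨k, -, hk⟩ := Finset.exists_max_image Finset.univ h Finset.univ_nonempty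
  obtain ⟨i, j, hij⟩ := cyc0 (fun d => h (k + d)) (fun j => by simpa only [add_assoc] using h2 (k + j))
    (by obtain ⟨j, hj⟩ := hne; exact ⟨j - k, by simpa using hj⟩)
    (fun j => by simpa using hk _ (Finset.mem_univ _)) ho
    (by
      obtain ⟨j, hj⟩ := ht
      refine ⟨j - k, ?_⟩
      simpa only [← add_assoc, add_sub_cancel] using hj)
  exact ⟨_, _, hij⟩

lemma three_le {a b c u v w o : ℝ} (ha : 0 ≤ a) (hb : 0 ≤ b) (hc : 0 ≤ c) (hs : a + b + c = 3)
    (ho : 3 * o = a * u + b * v + c * w) : (o ≤ u ∨ o ≤ v ∨ o ≤ w) ∧ (u ≤ o ∨ v ≤ o ∨ w ≤ o) := by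
  have e : a * (o - u) + b * (o - v) + c * (o - w) = 0 := by
    have : 3 * o = (a + b + c) * o := by rw [hs]
    linarith
  have hp : 0 < a ∨ 0 < b ∨ 0 < c := by
    by_contra hn; push Not at hn; linarith [hn.1, hn.2.1, hn.2.2]
  constructor
  · by_contra hn
    push Not at hn
    have := mul_nonneg ha (sub_pos.2 hn.1).le
    have := mul_nonneg hb (sub_pos.2 hn.2.1).le
    have := mul_nonneg hc (sub_pos.2 hn.2.2).le
    rcases hp with h | h | h
    · linarith [mul_pos h (sub_pos.2 hn.1)]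
    · linarith [mul_pos h (sub_pos.2 hn.2.1)]
    · linarith [mul_pos h (sub_pos.2 hn.2.2)]
  · by_contra hn
    push Not at hn
    have := mul_nonneg ha (sub_pos.2 hn.1).le
    have := mul_nonneg hb (sub_pos.2 hn.2.1).le
    have := mul_nonneg hc (sub_pos.2 hn.2.2).le
    rcases hp with h | h | h
    · nlinarith [mul_pos h (sub_pos.2 hn.1)]
    · nlinarith [mul_pos h (sub_pos.2 hn.2.1)]
    · nlinarith [mul_pos h (sub_pos.2 hn.2.2)]

lemma scalar {p q x y : ℝ} (hne : p ≠ 0 ∨ q ≠ 0) (hg : gam x y ≤ 1) :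
    ∃ i j, G ((cx i - x) * p + (cy i - y) * q) ((cx j - x) * p + (cy j - y) * q) := by
  set h : Fin 6 → ℝ := fun k => cx k * p + cy k * q with hh
  set o := x * p + y * q with ho
  have e : ∀ k, (cx k - x) * p + (cy k - y) * q = h k - o := fun k => by simp only [hh, ho]; ring
  simp only [e]
  have h2 : ∀ j, h (j + 2) = h (j + 1) - h j := fun j => by
    fin_cases j <;> simp [hh, cx, cy] <;> ring
  have hn : ∃ j, h j ≠ 0 := by
    rcases hne with a | a
    · exact ⟨0, by simpa [hh, cx, cy] using a⟩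
    · exact ⟨1, by simpa [hh, cx, cy] using a⟩
  have ht : (∃ j, o ≤ h j + h (j + 1)) ∧ ∃ j, h j + h (j + 1) ≤ o := by
    rcases min_le_iff.1 hg with a | a <;> simp only [max_le_iff] at a <;> obtain ⟨a1, a2, a3⟩ := a
    · obtain ⟨b, c⟩ := three_le (a := 1 - x - y) (b := 1 + y) (c := 1 + x) (u := h 3 + h (3 + 1))
        (v := h 1 + h (1 + 1)) (w := h 5 + h (5 + 1)) (o := o) (by linarith) (by linarith)
        (by linarith) (by ring) (by simp [hh, ho, cx, cy]; ring)
      exact ⟨by rcases b with b | b | b <;> exact ⟨_, b⟩, by rcases c with b | b | b <;> exact ⟨_, b⟩⟩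
    · obtain ⟨b, c⟩ := three_le (a := 1 + x + y) (b := 1 - y) (c := 1 - x) (u := h 0 + h (0 + 1))
        (v := h 4 + h (4 + 1)) (w := h 2 + h (2 + 1)) (o := o) (by linarith) (by linarith)
        (by linarith) (by ring) (by simp [hh, ho, cx, cy]; ring)
      exact ⟨by rcases b with b | b | b <;> exact ⟨_, b⟩, by rcases c with b | b | b <;> exact ⟨_, b⟩⟩
  rcases le_total 0 o with s | s
  · exact cyc1 h h2 hn s ht.1
  · obtain ⟨i, j, k⟩ := cyc1 (fun k => -h k) (fun j => by simp only [h2]; ring)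
      (by obtain ⟨j, hj⟩ := hn; exact ⟨j, neg_ne_zero.2 hj⟩) (o := -o) (by linarith)
      (by obtain ⟨j, hj⟩ := ht.2; exact ⟨j, by linarith⟩)
    refine ⟨i, j, G.neg ?_⟩
    convert k using 1 <;> ring

/-- Two vertices on one ray, one at least twice as far as the other. -/
def Bd (w : Fin 6 → E) : Prop := ∃ (i j : Fin 6) (μ : ℝ), 0 ≤ μ ∧ μ ≤ 1 / 2 ∧ w i = μ • w j ∧ w j ≠ 0

lemma bd_line {p q x y : ℝ} {e : E} (he : e ≠ 0) (hne : p ≠ 0 ∨ q ≠ 0) (hg : gam x y ≤ 1) :
    Bd (W (p • e) (q • e) x y) := by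
  obtain ⟨i, j, μ, a, b, c, d⟩ := scalar hne hg
  have f : ∀ k, W (p • e) (q • e) x y k = ((cx k - x) * p + (cy k - y) * q) • e := fun k => by
    simp only [W, smul_smul, add_smul]
  exact ⟨i, j, μ, a, b, by rw [f, f, c, smul_smul], by rw [f]; exact smul_ne_zero d he⟩

lemma bd_deg {p q : E} {x y : ℝ} (hne : p ≠ 0 ∨ q ≠ 0) (hd : p 0 * q 1 - p 1 * q 0 = 0)
    (hg : gam x y ≤ 1) : Bd (W p q x y) := by
  by_cases hp : p = 0
  · have hq : q ≠ 0 := hne.resolve_left (not_not.2 hp)
    have := bd_line (p := 0) (q := 1) hq (Or.inr one_ne_zero) hg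
    rwa [zero_smul, one_smul, ← hp] at this
  · have h0 : p 0 ^ 2 + p 1 ^ 2 ≠ 0 := fun h => hp (by
      funext i
      fin_cases i
      · show p 0 = 0
        nlinarith [sq_nonneg (p 0), sq_nonneg (p 1)]
      · show p 1 = 0
        nlinarith [sq_nonneg (p 0), sq_nonneg (p 1)])
    have hq : q = ((p 0 * q 0 + p 1 * q 1) / (p 0 ^ 2 + p 1 ^ 2)) • p := by
      funext i
      fin_cases i
      · show q 0 = _ * p 0
        field_simp
        linear_combination (-p 1) * hd
      · show q 1 = _ * p 1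
        field_simp
        linear_combination (p 0) * hd
    have := bd_line (p := 1) (q := (p 0 * q 0 + p 1 * q 1) / (p 0 ^ 2 + p 1 ^ 2)) hp
      (Or.inl one_ne_zero) hg
    rwa [one_smul, ← hq] at this

lemma bd_seg {p q : E} {x y : ℝ} (hd : p 0 * q 1 - p 1 * q 0 ≠ 0) (i j : Fin 6) (s : ℝ)
    (h0 : 0 ≤ s) (h1 : s ≤ 1) (hx : x = cx i + s * (cx i - cx j))
    (hy : y = cy i + s * (cy i - cy j)) (hij : cx i ≠ cx j ∨ cy i ≠ cy j) : Bd (W p q x y) := by
  have hs : 0 < 1 + s := by linarith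
  refine ⟨i, j, s / (1 + s), by positivity, by rw [div_le_iff₀ hs]; linarith, ?_, ?_⟩
  · simp only [W, smul_add, smul_smul]
    congr 2
    · rw [hx]; field_simp; ring
    · rw [hy]; field_simp; ring
  · intro h
    have a := congrFun h 0
    have b := congrFun h 1
    simp only [W, Pi.add_apply, Pi.smul_apply, smul_eq_mul, Pi.zero_apply] at a b
    have e1 : (cx j - x) * (p 0 * q 1 - p 1 * q 0) = 0 := by linear_combination q 1 * a - q 0 * b
    have e2 : (cy j - y) * (p 0 * q 1 - p 1 * q 0) = 0 := by linear_combination p 0 * b - p 1 * a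
    have f1 := (mul_eq_zero.1 e1).resolve_right hd
    have f2 := (mul_eq_zero.1 e2).resolve_right hd
    have g1 : (1 + s) * (cx i - cx j) = 0 := by linarith
    have g2 : (1 + s) * (cy i - cy j) = 0 := by linarith
    rcases hij with k | k
    · exact k (sub_eq_zero.1 ((mul_eq_zero.1 g1).resolve_left hs.ne'))
    · exact k (sub_eq_zero.1 ((mul_eq_zero.1 g2).resolve_left hs.ne'))

lemma bd_star {p q : E} {x y : ℝ} (hd : p 0 * q 1 - p 1 * q 0 ≠ 0) (hg : gam x y = 1) :
    Bd (W p q x y) := by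
  have h1 : 1 ≤ x + y ∨ 1 ≤ -x ∨ 1 ≤ -y := by
    have := (le_min_iff.1 hg.ge).1
    simpa only [le_max_iff] using this
  have h2 : 1 ≤ -(x + y) ∨ 1 ≤ x ∨ 1 ≤ y := by
    have := (le_min_iff.1 hg.ge).2
    simpa only [le_max_iff] using this
  rcases min_le_iff.1 hg.le with a | a <;> simp only [max_le_iff] at a <;> obtain ⟨a1, a2, a3⟩ := a
  · rcases h1 with b | b | b <;> rcases h2 with c | c | c
    · exfalso; linarith
    · exact bd_seg hd 0 1 (-y) (by linarith) (by linarith) (by simp [cx]; linarith)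
        (by simp [cy]) (by simp [cx])
    · exact bd_seg hd 1 0 (-x) (by linarith) (by linarith) (by simp [cx])
        (by simp [cy]; linarith) (by simp [cx])
    · exact bd_seg hd 3 2 (-y) (by linarith) (by linarith) (by simp [cx]; linarith)
        (by simp [cy]) (by simp [cy])
    · exfalso; linarith
    · exact bd_seg hd 2 3 (y - 1) (by linarith) (by linarith) (by simp [cx]; linarith)
        (by simp [cy]) (by simp [cy])
    · exact bd_seg hd 4 5 (-x) (by linarith) (by linarith) (by simp [cx])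
        (by simp [cy]; linarith) (by simp [cx])
    · exact bd_seg hd 5 4 (x - 1) (by linarith) (by linarith) (by simp [cx])
        (by simp [cy]; linarith) (by simp [cx])
    · exfalso; linarith
  · rcases h2 with b | b | b <;> rcases h1 with c | c | c
    · exfalso; linarith
    · exact bd_seg hd 3 4 y (by linarith) (by linarith) (by simp [cx]; linarith)
        (by simp [cy]) (by simp [cx])
    · exact bd_seg hd 4 3 x (by linarith) (by linarith) (by simp [cx])
        (by simp [cy]; linarith) (by simp [cx])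
    · exact bd_seg hd 0 5 y (by linarith) (by linarith) (by simp [cx]; linarith)
        (by simp [cy]) (by simp [cy])
    · exfalso; linarith
    · exact bd_seg hd 5 0 (-y - 1) (by linarith) (by linarith) (by simp [cx]; linarith)
        (by simp [cy]) (by simp [cy])
    · exact bd_seg hd 1 2 x (by linarith) (by linarith) (by simp [cx])
        (by simp [cy]; linarith) (by simp [cx])
    · exact bd_seg hd 2 1 (-x - 1) (by linarith) (by linarith) (by simp [cx])
        (by simp [cy]; linarith) (by simp [cx])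
    · exfalso; linarith

lemma bd_all {p q : E} {x y : ℝ} (hne : p ≠ 0 ∨ q ≠ 0) (hg : gam x y ≤ 1)
    (h : p 0 * q 1 - p 1 * q 0 = 0 ∨ gam x y = 1) : Bd (W p q x y) := by
  by_cases hd : p 0 * q 1 - p 1 * q 0 = 0
  · exact bd_deg hne hd hg
  · exact bd_star hd (h.resolve_left hd)

lemma gam_neg (x y : ℝ) : gam (-x) (-y) = gam x y := by
  unfold gam
  rw [min_comm, neg_neg, neg_neg, ← neg_add, neg_neg]

lemma gam_smul {t : ℝ} (ht : 0 ≤ t) (x y : ℝ) : gam (t * x) (t * y) = t * gam x y := by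
  unfold gam
  simp only [mul_min_of_nonneg _ _ ht, mul_max_of_nonneg _ _ ht, mul_add, mul_neg]

lemma gam_eq_zero {x y : ℝ} (h : gam x y ≤ 0) : x = 0 ∧ y = 0 := by
  rcases min_le_iff.1 h with a | a <;> simp only [max_le_iff] at a <;> obtain ⟨a1, a2, a3⟩ := a <;>
    constructor <;> linarith

lemma W_neg (p q : E) (x y : ℝ) (k : Fin 6) : W (-p) (-q) (-x) (-y) k = W p q x y (k + 3) := by
  have h1 : cx (k + 3) = -cx k := by fin_cases k <;> simp [cx]
  have h2 : cy (k + 3) = -cy k := by fin_cases k <;> simp [cy]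
  simp only [W, h1, h2, smul_neg, ← neg_smul]
  congr 2 <;> ring

end Pool.Agent.P.MP_e1e3b8_co.R
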