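import Pool.Agent.P.MP_e1e3b8_co.R.Bd
import Pool.Agent.P.MP_56563a_an.BU

/-! The odd test map and the Borsuk-Ulam argument. -/

set_option autoImplicit false

namespace Pool.Agent.P.MP_e1e3b8_co.R

/-- A gauge `ρ` and a function `φ` that changes sign between the levels one and two of `ρ`. -/
structure Dat (ρ φ : E → ℝ) (L : ℝ) : Prop where
  cρ : Continuous ρ
  cφ : Continuous φ
  hom : ∀ t : ℝ, 0 ≤ t → ∀ w, ρ (t • w) = t * ρ w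
  L0 : 0 < L
  low : ∀ w : E, 1 ≤ w 0 ^ 2 + w 1 ^ 2 → 1 ≤ L * ρ w
  pos : ∀ w, w ≠ 0 → 0 < ρ w
  neg : ∀ w, ρ w ≤ 1 → φ w < 0
  big : ∀ w, 2 ≤ ρ w → 0 < φ w

/-- The squared length. -/
def sq (w : E) : ℝ := w 0 ^ 2 + w 1 ^ 2

/-- The six numbers that have to vanish. -/
noncomputable def Hh (ρ φ : E → ℝ) (L : ℝ) (w : Fin 6 → E) (s k1 k2 : ℝ) (k : Fin 6) : ℝ :=
  (1 - k1) * (s + sq (w k) - (sq (w 0) + sq (w 1) + sq (w 3) + sq (w 4)) / 4) +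
    k1 * ((1 - k2) * (ρ ((L * (1 + s)) • w k) - 3 / 2) + k2 * φ ((L * (1 + s)) • w k))

/-- The twisted coordinates. -/
noncomputable def Ps (a1 a2 b1 b2 x y s1 s2 : ℝ) (H : Fin 6 → ℝ) : Fin 7 → ℝ :=
  ![a1 * ((H 0 + H 1 + H 3 + H 4) / 4) - a2 * (a1 * s2 - a2 * s1) + (1 - a1 ^ 2 - a2 ^ 2) * s1,
    a2 * ((H 0 + H 1 + H 3 + H 4) / 4) + a1 * (a1 * s2 - a2 * s1) + (1 - a1 ^ 2 - a2 ^ 2) * s2,
    -(H 0 - H 3) / 4 + (1 - a1 ^ 2 - a2 ^ 2) * x,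
    -(H 1 - H 4) / 4 + (1 - a1 ^ 2 - a2 ^ 2) * y,
    a1 * ((H 0 + H 3 - H 1 - H 4) / 8) - a2 * ((H 0 + H 3 + H 1 + H 4 - 2 * H 2 - 2 * H 5) / 16) +
      (1 - a1 ^ 2 - a2 ^ 2) * b1,
    a2 * ((H 0 + H 3 - H 1 - H 4) / 8) + a1 * ((H 0 + H 3 + H 1 + H 4 - 2 * H 2 - 2 * H 5) / 16) +
      (1 - a1 ^ 2 - a2 ^ 2) * b2,
    H 2 - H 5 - (H 1 - H 4) + (H 0 - H 3)]

lemma Ps_neg (a1 a2 b1 b2 x y s1 s2 : ℝ) (H : Fin 6 → ℝ) :
    Ps (-a1) (-a2) (-b1) (-b2) (-x) (-y) (-s1) (-s2) (fun k => H (k + 3)) =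
      -Ps a1 a2 b1 b2 x y s1 s2 H := by
  funext i
  fin_cases i <;> simp [Ps] <;> ring

lemma Ps_unit {a1 a2 b1 b2 x y s1 s2 : ℝ} {H : Fin 6 → ℝ} (ha : a1 ^ 2 + a2 ^ 2 = 1)
    (h : Ps a1 a2 b1 b2 x y s1 s2 H = 0) : a1 * s2 - a2 * s1 = 0 ∧ ∀ k, H k = 0 := by
  have e : 1 - a1 ^ 2 - a2 ^ 2 = 0 := by linarith
  have h0 := congrFun h 0
  have h1 := congrFun h 1
  have h2 := congrFun h 2
  have h3 := congrFun h 3
  have h4 := congrFun h 4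
  have h5 := congrFun h 5
  have h6 := congrFun h 6
  simp only [Ps, e, zero_mul, add_zero, Matrix.cons_val, Pi.zero_apply, Matrix.cons_val_zero,
    Matrix.cons_val_one] at h0 h1 h2 h3 h4 h5 h6
  have f0 : (H 0 + H 1 + H 3 + H 4) / 4 = 0 := by
    linear_combination a1 * h0 + a2 * h1 - ((H 0 + H 1 + H 3 + H 4) / 4) * ha
  have f1 : a1 * s2 - a2 * s1 = 0 := by
    linear_combination a1 * h1 - a2 * h0 - (a1 * s2 - a2 * s1) * ha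
  have f2 : (H 0 + H 3 - H 1 - H 4) / 8 = 0 := by
    linear_combination a1 * h4 + a2 * h5 - ((H 0 + H 3 - H 1 - H 4) / 8) * ha
  have f3 : (H 0 + H 3 + H 1 + H 4 - 2 * H 2 - 2 * H 5) / 16 = 0 := by
    linear_combination a1 * h5 - a2 * h4 -
      ((H 0 + H 3 + H 1 + H 4 - 2 * H 2 - 2 * H 5) / 16) * ha
  refine ⟨f1, fun k => ?_⟩
  fin_cases k <;> simp only [Fin.zero_eta, Fin.mk_one, Fin.reduceFinMk] <;> linarith

lemma Ps_ref {ρ φ : E → ℝ} {L a1 a2 b1 b2 x y s1 s2 k2 : ℝ} (ha : a1 ^ 2 + a2 ^ 2 ≤ 1)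
    (hb : b1 ^ 2 + b2 ^ 2 ≤ 1) (h : Ps a1 a2 b1 b2 x y s1 s2
      (Hh ρ φ L (W ![a1 + b1, a2 + b2] ![b2 - a2, a1 - b1] x y) (a1 * s1 + a2 * s2) 0 k2) = 0) :
    s1 = 0 ∧ s2 = 0 ∧ x = 0 ∧ y = 0 ∧ b1 ^ 2 + b2 ^ 2 < 1 := by
  have h0 := congrFun h 0
  have h1 := congrFun h 1
  have h2 := congrFun h 2
  have h3 := congrFun h 3
  have h4 := congrFun h 4
  have h5 := congrFun h 5
  simp only [Ps, Hh, sq, W, cx, cy, zero_mul, add_zero, sub_zero, one_mul, Matrix.cons_val,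
    Pi.zero_apply, Matrix.cons_val_zero, Matrix.cons_val_one, Pi.add_apply, Pi.smul_apply,
    smul_eq_mul] at h0 h1 h2 h3 h4 h5
  have f0 : s1 = 0 := by linear_combination h0
  have f1 : s2 = 0 := by linear_combination h1
  have f4 : b1 = -(a2 * (a1 ^ 2 + a2 ^ 2 + b1 ^ 2 + b2 ^ 2) / 4) := by linear_combination h4
  have f5 : b2 = a1 * (a1 ^ 2 + a2 ^ 2 + b1 ^ 2 + b2 ^ 2) / 4 := by linear_combination h5
  have f2 : (1 + b1 ^ 2 + b2 ^ 2 + 2 * (a1 * b1 + a2 * b2)) * x + 2 * (a1 * b2 - a2 * b1) * y = 0 := by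
    linear_combination h2
  have f3 : 2 * (a1 * b2 - a2 * b1) * x + (1 + b1 ^ 2 + b2 ^ 2 - 2 * (a1 * b1 + a2 * b2)) * y = 0 := by
    linear_combination h3
  clear h h0 h1 h2 h3 h4 h5
  obtain ⟨u, hu⟩ : ∃ u, u = a1 ^ 2 + a2 ^ 2 + b1 ^ 2 + b2 ^ 2 := ⟨_, rfl⟩
  rw [← hu] at f4 f5
  have u0 : 0 ≤ u := by rw [hu]; positivity
  have u2 : u ^ 2 ≤ 4 := by
    have := pow_le_pow_left₀ u0 (show u ≤ 2 by linarith) 2
    linarith
  have g : b1 ^ 2 + b2 ^ 2 = (a1 ^ 2 + a2 ^ 2) * u ^ 2 / 16 := by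
    have : b1 ^ 2 + b2 ^ 2 = (-(a2 * u / 4)) ^ 2 + (a1 * u / 4) ^ 2 := by rw [← f4, ← f5]
    rw [this]; ring
  have g2 : b1 ^ 2 + b2 ^ 2 ≤ 1 / 4 := by
    have := mul_le_mul ha u2 (sq_nonneg u) zero_le_one
    linarith
  have D : 0 < (1 + b1 ^ 2 + b2 ^ 2) ^ 2 - 4 * ((a1 ^ 2 + a2 ^ 2) * (b1 ^ 2 + b2 ^ 2)) := by
    have := mul_le_mul_of_nonneg_right ha (show 0 ≤ b1 ^ 2 + b2 ^ 2 by positivity)
    nlinarith [sq_nonneg (1 - (b1 ^ 2 + b2 ^ 2))]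
  refine ⟨f0, f1, ?_, ?_, by linarith⟩
  · refine (mul_eq_zero.1 ?_).resolve_left D.ne'
    linear_combination (1 + b1 ^ 2 + b2 ^ 2 - 2 * (a1 * b1 + a2 * b2)) * f2 -
      2 * (a1 * b2 - a2 * b1) * f3
  · refine (mul_eq_zero.1 ?_).resolve_left D.ne'
    linear_combination (1 + b1 ^ 2 + b2 ^ 2 + 2 * (a1 * b1 + a2 * b2)) * f3 -
      2 * (a1 * b2 - a2 * b1) * f2

variable {ρ φ : E → ℝ} {L : ℝ}

lemma Dat.zero (D : Dat ρ φ L) : ρ 0 = 0 := by simpa using D.hom 0 le_rfl 0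

lemma Dat.lo (D : Dat ρ φ L) {k : ℝ} (h0 : 0 ≤ k) (h1 : k ≤ 1) {w : E} (h : ρ w ≤ 1) :
    (1 - k) * (ρ w - 3 / 2) + k * φ w < 0 := by
  have := D.neg w h
  rcases h0.eq_or_lt with e | e
  · rw [← e]; linarith
  · nlinarith [mul_pos e (neg_pos.2 this)]

lemma Dat.hi (D : Dat ρ φ L) {k : ℝ} (h0 : 0 ≤ k) (h1 : k ≤ 1) {w : E} (h : 2 ≤ ρ w) :
    0 < (1 - k) * (ρ w - 3 / 2) + k * φ w := by
  have := D.big w h
  rcases h0.eq_or_lt with e | e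
  · rw [← e]; linarith
  · nlinarith [mul_pos e this]

lemma sq_pos {w : E} (h : w ≠ 0) : 0 < sq w := by
  by_contra hn
  apply h
  unfold sq at hn
  funext i
  fin_cases i
  · show w 0 = 0
    nlinarith [sq_nonneg (w 0), sq_nonneg (w 1)]
  · show w 1 = 0
    nlinarith [sq_nonneg (w 0), sq_nonneg (w 1)]

lemma Dat.not_bd (D : Dat ρ φ L) {w : Fin 6 → E} (hw : Bd w) {s k1 k2 : ℝ} (hs : -1 ≤ s)
    (h0 : 0 < k1) (h1 : k1 ≤ 1) (h2 : 0 ≤ k2) (h3 : k2 ≤ 1) (h4 : k2 = 0 ∨ k1 = 1)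
    (h : ∀ k, Hh ρ φ L w s k1 k2 k = 0) : False := by
  obtain ⟨i, j, μ, m0, m1, e, hj⟩ := hw
  have l0 : 0 ≤ L * (1 + s) := mul_nonneg D.L0.le (by linarith)
  have hi := h i
  have hj' := h j
  have r : ρ ((L * (1 + s)) • w i) = μ * ρ ((L * (1 + s)) • w j) := by
    rw [e, smul_comm, D.hom μ m0]
  have r0 : 0 ≤ ρ ((L * (1 + s)) • w j) := by
    rw [D.hom _ l0]; exact mul_nonneg l0 (D.pos _ hj).le
  rcases h1.eq_or_lt with k | k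
  · simp only [Hh, k, sub_self, zero_mul, zero_add, one_mul] at hi hj'
    rcases le_or_gt (ρ ((L * (1 + s)) • w i)) 1 with c | c
    · exact (D.lo h2 h3 c).ne hi
    · exact (D.hi h2 h3 (by nlinarith)).ne' hj'
  · have k2' : k2 = 0 := h4.resolve_right k.ne
    have q : sq (w i) = μ ^ 2 * sq (w j) := by
      rw [e]; simp only [sq, Pi.smul_apply, smul_eq_mul]; ring
    simp only [Hh, k2', sub_zero, zero_mul, add_zero, one_mul, r, q] at hi hj'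
    have p1 : 0 < (1 - k1) * ((1 - μ ^ 2) * sq (w j)) :=
      mul_pos (by linarith) (mul_pos (by nlinarith) (sq_pos hj))
    have p2 : 0 ≤ k1 * ((1 - μ) * ρ ((L * (1 + s)) • w j)) :=
      mul_nonneg h0.le (mul_nonneg (by linarith) r0)
    nlinarith

lemma Dat.not_end (D : Dat ρ φ L) {w : Fin 6 → E}
    (hw : 4 ≤ sq (w 0) + sq (w 1) + sq (w 3) + sq (w 4)) {s k1 k2 : ℝ} (hs : s ^ 2 = 1)
    (h0 : 0 < k1) (h1 : k1 ≤ 1) (h2 : 0 ≤ k2) (h3 : k2 ≤ 1)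
    (h : ∀ k, Hh ρ φ L w s k1 k2 k = 0) : False := by
  have hs' : s = 1 ∨ s = -1 := by
    have : (s - 1) * (s + 1) = 0 := by linarith
    rcases mul_eq_zero.1 this with e | e
    · left; linarith
    · right; linarith
  set m := (sq (w 0) + sq (w 1) + sq (w 3) + sq (w 4)) / 4 with hm
  rcases hs' with rfl | rfl
  · obtain ⟨j, hj⟩ : ∃ j, m ≤ sq (w j) := by
      by_contra hn
      push Not at hn
      linarith [hn 0, hn 1, hn 3, hn 4]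
    have hj' := h j
    have r : 2 ≤ ρ ((L * (1 + 1)) • w j) := by
      rw [D.hom _ (by linarith [D.L0])]
      have := D.low (w j) (by unfold sq at hj; linarith)
      linarith
    have p1 := mul_pos h0 (D.hi h2 h3 r)
    have p2 : 0 ≤ (1 - k1) * (1 + sq (w j) - m) := mul_nonneg (by linarith) (by linarith)
    rw [Hh, ← hm] at hj'
    linarith
  · obtain ⟨j, hj⟩ : ∃ j, sq (w j) ≤ m := by
      by_contra hn
      push Not at hn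
      linarith [hn 0, hn 1, hn 3, hn 4]
    have hj' := h j
    have r : ρ ((L * (1 + -1)) • w j) ≤ 1 := by
      rw [D.hom _ (by linarith)]
      norm_num
    have p1 := mul_pos h0 (neg_pos.2 (D.lo h2 h3 r))
    have p2 : 0 ≤ (1 - k1) * (-(-1 + sq (w j) - m)) := mul_nonneg (by linarith) (by linarith)
    rw [Hh, ← hm] at hj'
    linarith

/-- The denominator of the normalised first coordinate pair. -/
noncomputable def dn (Y : Fin 8 → ℝ) : ℝ := √(max (Y 0 ^ 2 + Y 1 ^ 2) (1 / 4))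

lemma dn_pos (Y : Fin 8 → ℝ) : 0 < dn Y :=
  Real.sqrt_pos.2 (lt_max_of_lt_right (by norm_num))

lemma dn_sq (Y : Fin 8 → ℝ) :
    (Y 0 / dn Y) ^ 2 + (Y 1 / dn Y) ^ 2 = (Y 0 ^ 2 + Y 1 ^ 2) / max (Y 0 ^ 2 + Y 1 ^ 2) (1 / 4) := by
  rw [div_pow, div_pow, ← add_div, dn, Real.sq_sqrt (le_max_of_le_right (by norm_num))]

/-- The six numbers as functions of the parameters. -/
noncomputable def HY (ρ φ : E → ℝ) (L : ℝ) (Y : Fin 8 → ℝ) : Fin 6 → ℝ :=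
  Hh ρ φ L (W ![Y 0 / dn Y + Y 2, Y 1 / dn Y + Y 3] ![Y 3 - Y 1 / dn Y, Y 0 / dn Y - Y 2]
    (Y 4) (Y 5)) (Y 0 / dn Y * Y 6 + Y 1 / dn Y * Y 7)
    (min 1 (max 0 (4 * (Y 0 ^ 2 + Y 1 ^ 2) - 1))) (max 0 (2 * (Y 0 ^ 2 + Y 1 ^ 2) - 1))

/-- The test map. -/
noncomputable def Psi (ρ φ : E → ℝ) (L : ℝ) (Y : Fin 8 → ℝ) : Fin 7 → ℝ :=
  Ps (Y 0 / dn Y) (Y 1 / dn Y) (Y 2) (Y 3) (Y 4) (Y 5) (Y 6) (Y 7) (HY ρ φ L Y)

lemma Psi_neg (Y : Fin 8 → ℝ) : Psi ρ φ L (-Y) = -Psi ρ φ L Y := by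
  have hd : dn (-Y) = dn Y := by simp [dn]
  have hH : HY ρ φ L (-Y) = fun k => HY ρ φ L Y (k + 3) := by
    have e1 : (![-(Y 0 / dn Y) + -Y 2, -(Y 1 / dn Y) + -Y 3] : E) =
        -![Y 0 / dn Y + Y 2, Y 1 / dn Y + Y 3] := by
      funext i; fin_cases i <;> simp <;> ring
    have e2 : (![-Y 3 - -(Y 1 / dn Y), -(Y 0 / dn Y) - -Y 2] : E) =
        -![Y 3 - Y 1 / dn Y, Y 0 / dn Y - Y 2] := by
      funext i; fin_cases i <;> simp <;> ring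
    funext k
    simp only [HY, hd, Pi.neg_apply, neg_div, neg_mul_neg, even_two, Even.neg_pow, e1, e2, Hh,
      W_neg, Fin.reduceAdd]
    ring
  unfold Psi
  rw [hH, hd, ← Ps_neg]
  simp only [Pi.neg_apply, neg_div]

lemma Dat.cont (D : Dat ρ φ L) : Continuous (Psi ρ φ L) := by
  have hd : Continuous dn := by unfold dn; fun_prop
  have h0 : Continuous fun Y : Fin 8 → ℝ => Y 0 / dn Y :=
    (continuous_apply 0).div hd fun Y => (dn_pos Y).ne'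
  have h1 : Continuous fun Y : Fin 8 → ℝ => Y 1 / dn Y :=
    (continuous_apply 1).div hd fun Y => (dn_pos Y).ne'
  have c1 := D.cρ
  have c2 := D.cφ
  have hH : ∀ k, Continuous fun Y => HY ρ φ L Y k := fun k => by
    unfold HY Hh sq W
    fun_prop
  have hH0 := hH 0
  have hH1 := hH 1
  have hH2 := hH 2
  have hH3 := hH 3
  have hH4 := hH 4
  have hH5 := hH 5
  unfold Psi Ps
  fun_prop

/-- The square of the gauge of the parameter domain. -/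
noncomputable def N2 (X : Fin 8 → ℝ) : ℝ := max (max (X 0 ^ 2 + X 1 ^ 2) (X 2 ^ 2 + X 3 ^ 2))
  (max (gam (X 4) (X 5) ^ 2) (X 6 ^ 2 + X 7 ^ 2))

lemma gam_nonneg (x y : ℝ) : 0 ≤ gam x y := by
  by_contra h
  obtain ⟨rfl, rfl⟩ := gam_eq_zero (not_le.1 h).le
  simp [gam] at h

lemma Dat.of_zero (D : Dat ρ φ L) {Y : Fin 8 → ℝ} (hN : N2 Y = 1) (h : Psi ρ φ L Y = 0) :
    ∃ (p q : E) (x y : ℝ), p 0 * q 1 - p 1 * q 0 ≠ 0 ∧ ∀ k, φ (W p q x y k) = 0 := by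
  obtain ⟨⟨n1, n2⟩, n3, n4⟩ : (Y 0 ^ 2 + Y 1 ^ 2 ≤ 1 ∧ Y 2 ^ 2 + Y 3 ^ 2 ≤ 1) ∧
      gam (Y 4) (Y 5) ^ 2 ≤ 1 ∧ Y 6 ^ 2 + Y 7 ^ 2 ≤ 1 := by
    simpa only [N2, max_le_iff] using hN.le
  have n5 : (1 ≤ Y 0 ^ 2 + Y 1 ^ 2 ∨ 1 ≤ Y 2 ^ 2 + Y 3 ^ 2) ∨
      1 ≤ gam (Y 4) (Y 5) ^ 2 ∨ 1 ≤ Y 6 ^ 2 + Y 7 ^ 2 := by
    simpa only [N2, le_max_iff] using hN.ge
  have g0 := gam_nonneg (Y 4) (Y 5)
  have g1 : gam (Y 4) (Y 5) ≤ 1 := by nlinarith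
  have ha := dn_sq Y
  unfold Psi HY at h
  generalize Y 0 / dn Y = a1 at *
  generalize Y 1 / dn Y = a2 at *
  generalize Y 0 ^ 2 + Y 1 ^ 2 = R at *
  rcases le_or_gt R (1 / 4) with c | c
  · exfalso
    rw [max_eq_right c] at ha
    rw [max_eq_left (show 4 * R - 1 ≤ 0 by linarith), min_eq_right zero_le_one] at h
    obtain ⟨e1, e2, e3, e4, e5⟩ := Ps_ref (by linarith) n2 h
    rw [e1, e2, e3, e4] at n5
    simp only [gam] at n5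
    norm_num at n5
    rcases n5 with n5 | n5 <;> linarith
  rw [max_eq_left c.le, div_self (by linarith)] at ha
  obtain ⟨hs, hH⟩ := Ps_unit ha h
  have k0 : 0 < min 1 (max 0 (4 * R - 1)) := lt_min one_pos (lt_max_of_lt_right (by linarith))
  have k1 : min 1 (max 0 (4 * R - 1)) ≤ 1 := min_le_left _ _
  have k2 : 0 ≤ max 0 (2 * R - 1) := le_max_left _ _
  have k3 : max 0 (2 * R - 1) ≤ 1 := max_le zero_le_one (by linarith)
  have k4 : max 0 (2 * R - 1) = 0 ∨ min 1 (max 0 (4 * R - 1)) = 1 := by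
    rcases le_total R (1 / 2) with c' | c'
    · exact Or.inl (max_eq_left (by linarith))
    · exact Or.inr (min_eq_left (le_max_of_le_right (by linarith)))
  have hs2 : (a1 * Y 6 + a2 * Y 7) ^ 2 = Y 6 ^ 2 + Y 7 ^ 2 := by
    linear_combination (Y 6 ^ 2 + Y 7 ^ 2) * ha - (a1 * Y 7 - a2 * Y 6) * hs
  have hs1 : -1 ≤ a1 * Y 6 + a2 * Y 7 := by nlinarith
  have hdet : (![a1 + Y 2, a2 + Y 3] : E) 0 * (![Y 3 - a2, a1 - Y 2] : E) 1 -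
      (![a1 + Y 2, a2 + Y 3] : E) 1 * (![Y 3 - a2, a1 - Y 2] : E) 0 = 1 - (Y 2 ^ 2 + Y 3 ^ 2) := by
    simp only [Matrix.cons_val_zero, Matrix.cons_val_one]
    linear_combination ha
  have hne : (![a1 + Y 2, a2 + Y 3] : E) ≠ 0 ∨ (![Y 3 - a2, a1 - Y 2] : E) ≠ 0 := by
    by_contra hn
    push Not at hn
    have b1 := congrFun hn.1 0
    have b2 := congrFun hn.1 1
    have b3 := congrFun hn.2 0
    have b4 := congrFun hn.2 1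
    simp only [Matrix.cons_val_zero, Matrix.cons_val_one, Pi.zero_apply] at b1 b2 b3 b4
    have : a1 = 0 := by linarith
    have : a2 = 0 := by linarith
    simp_all
  have nb := fun hb => D.not_bd (bd_all hne g1 hb) hs1 k0 k1 k2 k3 k4 hH
  have ne := fun e => D.not_end (w := W ![a1 + Y 2, a2 + Y 3] ![Y 3 - a2, a1 - Y 2] (Y 4) (Y 5))
    (by
      simp only [sq, W, cx, cy, Matrix.cons_val, Matrix.cons_val_zero, Matrix.cons_val_one,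
        Pi.add_apply, Pi.smul_apply, smul_eq_mul]
      nlinarith [sq_nonneg (Y 2), sq_nonneg (Y 3),
        sq_nonneg (Y 4 * (a1 + Y 2) + Y 5 * (Y 3 - a2)),
        sq_nonneg (Y 4 * (a2 + Y 3) + Y 5 * (a1 - Y 2))]) e k0 k1 k2 k3 hH
  have hb : 1 - (Y 2 ^ 2 + Y 3 ^ 2) ≠ 0 := fun e => nb (Or.inl (hdet.trans e))
  have hR : R = 1 := by
    rcases n5 with (c1 | c1) | c1 | c1
    · linarith
    · exact absurd (by linarith) hb
    · exact (nb (Or.inr (by nlinarith))).elim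
    · exact (ne (by linarith)).elim
  have l0 : L * (1 + (a1 * Y 6 + a2 * Y 7)) ≠ 0 := mul_ne_zero D.L0.ne' fun e =>
    ne (by rw [show a1 * Y 6 + a2 * Y 7 = -1 by linarith]; norm_num)
  refine ⟨(L * (1 + (a1 * Y 6 + a2 * Y 7))) • ![a1 + Y 2, a2 + Y 3],
    (L * (1 + (a1 * Y 6 + a2 * Y 7))) • ![Y 3 - a2, a1 - Y 2], Y 4, Y 5, ?_, fun k => ?_⟩
  · have := mul_ne_zero (pow_ne_zero 2 l0) (hdet.trans_ne hb)
    simp only [Pi.smul_apply, smul_eq_mul]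
    convert this using 1
    ring
  · have := hH k
    norm_num [Hh, hR] at this
    rw [← this, W, W, smul_add, smul_comm (cx k - Y 4), smul_comm (cy k - Y 5)]

lemma Dat.core (D : Dat ρ φ L) :
    ∃ (p q : E) (x y : ℝ), p 0 * q 1 - p 1 * q 0 ≠ 0 ∧ ∀ k, φ (W p q x y k) = 0 := by
  have hpos : ∀ X : Fin 8 → ℝ, X ≠ 0 → 0 < N2 X := by
    intro X hX
    by_contra hn
    obtain ⟨⟨n1, n2⟩, n3, n4⟩ : (X 0 ^ 2 + X 1 ^ 2 ≤ 0 ∧ X 2 ^ 2 + X 3 ^ 2 ≤ 0) ∧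
        gam (X 4) (X 5) ^ 2 ≤ 0 ∧ X 6 ^ 2 + X 7 ^ 2 ≤ 0 := by
      simpa only [N2, max_le_iff] using not_lt.1 hn
    obtain ⟨e4, e5⟩ := gam_eq_zero (x := X 4) (y := X 5) (by nlinarith)
    apply hX
    funext i
    fin_cases i <;> simp only [Fin.zero_eta, Fin.mk_one, Fin.reduceFinMk, Pi.zero_apply] <;>
      nlinarith [sq_nonneg (X 0), sq_nonneg (X 1), sq_nonneg (X 2), sq_nonneg (X 3),
        sq_nonneg (X 6), sq_nonneg (X 7)]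
  have hc : Continuous N2 := by unfold N2 gam; fun_prop
  have hne : ∀ X ∈ Metric.sphere (0 : Fin 8 → ℝ) 1, X ≠ 0 := fun X hX e => by simp [e] at hX
  obtain ⟨X, hX, h⟩ := Pool.Agent.P.MP_56563a_an.borsuk_ulam (κ := Fin 8) (ι := Fin 7)
    (by simp) (fun X => Psi ρ φ L ((√(N2 X))⁻¹ • X))
    (D.cont.comp_continuousOn ((hc.sqrt.continuousOn.inv₀ fun X hX =>
      (Real.sqrt_pos.2 (hpos X (hne X hX))).ne').smul continuousOn_id))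
    (fun X => by
      have : N2 (-X) = N2 X := by simp [N2, gam_neg]
      rw [this, smul_neg, Psi_neg])
  refine D.of_zero ?_ h
  have p := hpos X (hne X hX)
  have t0 : 0 ≤ (√(N2 X))⁻¹ := by positivity
  have e : ∀ t : ℝ, 0 ≤ t → N2 (t • X) = t ^ 2 * N2 X := fun t ht => by
    simp only [N2, Pi.smul_apply, smul_eq_mul, gam_smul ht, mul_max_of_nonneg _ _ (sq_nonneg t),
      mul_pow, mul_add]
  rw [e _ t0, inv_pow, Real.sq_sqrt p.le, inv_mul_cancel₀ p.ne']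

end Pool.Agent.P.MP_e1e3b8_co.R
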