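import Pool.Agent.P.MP_e1e3b8_co.R.Core

/-! Compact sets around a point that meet every ray within a ratio below two. -/

set_option autoImplicit false

namespace Pool.Agent.P.MP_e1e3b8_co.R

open Set Metric Filter Topology Matrix

lemma exists_G {J : Set E} {o : E} (hJ : IsCompact J) (ho : o ∉ J)
    (hr : ∀ x ∈ J, ∀ t : ℝ, 2 ≤ t → o + t • (x - o) ∉ J) : ∃ G : C(E, ℝ), ∀ u, 0 < G u ∧
      ∀ x ∈ J, x - o = ‖x - o‖ • u → 1 < ‖x - o‖ * G u ∧ ‖x - o‖ * G u < 2 := by
  refine exists_continuous_forall_mem_convex_of_local_const (t := fun u => {g : ℝ | 0 < g ∧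
    ∀ x ∈ J, x - o = ‖x - o‖ • u → 1 < ‖x - o‖ * g ∧ ‖x - o‖ * g < 2}) (fun u => ?_) fun u => ?_
  · refine OrdConnected.convex ⟨fun a ha b hb c hc => ⟨ha.1.trans_le hc.1, fun x hx e => ⟨?_, ?_⟩⟩⟩
    · exact (ha.2 x hx e).1.trans_le (mul_le_mul_of_nonneg_left hc.1 (norm_nonneg _))
    · exact (mul_le_mul_of_nonneg_left hc.2 (norm_nonneg _)).trans_lt (hb.2 x hx e).2
  have hn : Continuous fun x : E => ‖x - o‖ := by fun_prop
  obtain ⟨c, c0, hc⟩ : ∃ c : ℝ, 0 < c ∧
      ∀ x ∈ J, x - o = ‖x - o‖ • u → 1 < ‖x - o‖ * c ∧ ‖x - o‖ * c < 2 := by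
    have hS : IsCompact (J ∩ {x | x - o = ‖x - o‖ • u}) :=
      hJ.inter_right (isClosed_eq (by fun_prop) (by fun_prop))
    rcases (J ∩ {x | x - o = ‖x - o‖ • u}).eq_empty_or_nonempty with e | e
    · exact ⟨1, one_pos, fun x hx h => absurd (e ▸ (⟨hx, h⟩ : x ∈ J ∩ _)) (notMem_empty x)⟩
    obtain ⟨a, ha, ma⟩ := hS.exists_isMinOn e hn.continuousOn
    obtain ⟨b, hb, mb⟩ := hS.exists_isMaxOn e hn.continuousOn
    have a0 : 0 < ‖a - o‖ := norm_pos_iff.2 (sub_ne_zero.2 fun h => ho (h ▸ ha.1))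
    have b0 : 0 < ‖b - o‖ := a0.trans_le (ma hb)
    have hab : 1 / ‖a - o‖ < 2 / ‖b - o‖ := by
      rw [div_lt_div_iff₀ a0 b0]
      by_contra h
      refine hr a ha.1 (‖b - o‖ / ‖a - o‖) (by rw [le_div_iff₀ a0]; linarith) ?_
      have e1 : a - o = ‖a - o‖ • u := ha.2
      have e2 : b - o = ‖b - o‖ • u := hb.2
      have : (‖b - o‖ / ‖a - o‖) • (a - o) = b - o := by
        conv_lhs => rw [e1, smul_smul, ← e1, div_mul_cancel₀ _ a0.ne']
        exact e2.symm
      rw [this, add_sub_cancel]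
      exact hb.1
    obtain ⟨c, c1, c2⟩ := exists_between hab
    have c0 : 0 < c := (one_div_pos.2 a0).trans c1
    rw [div_lt_iff₀ a0] at c1
    rw [lt_div_iff₀ b0] at c2
    refine ⟨c, c0, fun x hx h => ?_⟩
    have h1 : ‖a - o‖ ≤ ‖x - o‖ := ma ⟨hx, h⟩
    have h2 : ‖x - o‖ ≤ ‖b - o‖ := mb ⟨hx, h⟩
    constructor <;> nlinarith
  refine ⟨c, (hJ.eventually_forall_of_forall_eventually (x₀ := u)
    (P := fun v x => x - o = ‖x - o‖ • v → 1 < ‖x - o‖ * c ∧ ‖x - o‖ * c < 2)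
    fun x hx => ?_).mono fun v hv => ⟨c0, hv⟩⟩
  by_cases h : x - o = ‖x - o‖ • u
  · have a1 : IsOpen {z : E × E | 1 < ‖z.2 - o‖ * c} := isOpen_lt continuous_const (by fun_prop)
    have a2 : IsOpen {z : E × E | ‖z.2 - o‖ * c < 2} := isOpen_lt (by fun_prop) continuous_const
    have h1 : IsOpen {z : E × E | 1 < ‖z.2 - o‖ * c ∧ ‖z.2 - o‖ * c < 2} := a1.inter a2
    exact (h1.eventually_mem (x := (u, x)) (hc x hx h)).mono fun z hz _ => hz
  · have h1 : IsOpen {z : E × E | z.2 - o ≠ ‖z.2 - o‖ • z.1} :=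
      isOpen_ne_fun (by fun_prop) (by fun_prop)
    exact (h1.eventually_mem (x := (u, x)) h).mono fun z hz e => absurd e hz

lemma exists_gauge {J : Set E} {o : E} (hJ : IsCompact J) (ho : o ∉ J)
    (hr : ∀ x ∈ J, ∀ t : ℝ, 2 ≤ t → o + t • (x - o) ∉ J) : ∃ (ρ : E → ℝ) (L : ℝ),
      Continuous ρ ∧ (∀ t : ℝ, 0 ≤ t → ∀ w, ρ (t • w) = t * ρ w) ∧ 0 < L ∧
      (∀ w : E, 1 ≤ w 0 ^ 2 + w 1 ^ 2 → 1 ≤ L * ρ w) ∧ (∀ w, w ≠ 0 → 0 < ρ w) ∧
      ∀ w, o + w ∈ J → 1 < ρ w ∧ ρ w < 2 := by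
  obtain ⟨G, hG⟩ := exists_G hJ ho hr
  have hB := isCompact_closedBall (0 : E) 1
  have hm : ∀ w : E, ‖w‖⁻¹ • w ∈ closedBall (0 : E) 1 := fun w => by
    rw [mem_closedBall_zero_iff, norm_smul, norm_inv, norm_norm]
    exact inv_mul_le_one_of_le₀ le_rfl (norm_nonneg _)
  obtain ⟨a, -, ma⟩ := hB.exists_isMinOn ⟨0, by simp⟩ G.continuous.continuousOn
  obtain ⟨b, -, mb⟩ := hB.exists_isMaxOn ⟨0, by simp⟩ G.continuous.continuousOn
  have a0 := (hG a).1
  refine ⟨fun w => ‖w‖ * G (‖w‖⁻¹ • w), 2 / G a, ?_, fun t ht w => ?_, by positivity,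
    fun w hw => ?_, fun w hw => mul_pos (norm_pos_iff.2 hw) (hG _).1, fun w hw => ?_⟩
  · refine continuous_iff_continuousAt.2 fun w => ?_
    by_cases h : w = 0
    · subst h
      have h0 : Tendsto (fun w : E => ‖w‖ * G b) (𝓝 0) (𝓝 0) := by
        simpa using (show Continuous fun w : E => ‖w‖ * G b by fun_prop).tendsto 0
      have := squeeze_zero (f := fun w : E => ‖w‖ * G (‖w‖⁻¹ • w))
        (fun w => mul_nonneg (norm_nonneg _) (hG _).1.le)
        (fun w => mul_le_mul_of_nonneg_left (mb (hm w)) (norm_nonneg _)) h0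
      simpa [ContinuousAt] using this
    · exact continuousAt_id.norm.mul (G.continuous.continuousAt.comp
        ((continuousAt_id.norm.inv₀ (norm_ne_zero_iff.2 h)).smul continuousAt_id))
  · rcases ht.eq_or_lt with rfl | ht
    · simp
    · simp only [norm_smul, Real.norm_eq_abs, abs_of_pos ht, smul_smul]
      rw [_root_.mul_inv_rev, mul_assoc ‖w‖⁻¹, inv_mul_cancel₀ ht.ne', mul_one, mul_assoc]
  · have h0 : |w 0| ≤ ‖w‖ := norm_le_pi_norm w 0
    have h1 : |w 1| ≤ ‖w‖ := norm_le_pi_norm w 1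
    have h2 : 1 / 2 ≤ ‖w‖ := by
      by_contra h
      nlinarith [sq_abs (w 0), sq_abs (w 1), abs_nonneg (w 0), abs_nonneg (w 1)]
    have h3 : G a ≤ G (‖w‖⁻¹ • w) := ma (hm w)
    have h4 := mul_le_mul h2 h3 a0.le (norm_nonneg _)
    rw [div_mul_eq_mul_div, le_div_iff₀ a0]
    linarith
  · have h : w ≠ 0 := fun e => ho (by simpa [e] using hw)
    have := (hG (‖w‖⁻¹ • w)).2 (o + w) hw (by
      rw [add_sub_cancel_left, smul_smul, mul_inv_cancel₀ (norm_ne_zero_iff.2 h), one_smul])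
    rwa [add_sub_cancel_left] at this

lemma exists_lattice {J : Set E} {o : E} (hJ : IsCompact J) (ho : o ∉ J)
    (hb : Bornology.IsBounded (connectedComponentIn Jᶜ o))
    (hr : ∀ x ∈ J, ∀ t : ℝ, 2 ≤ t → o + t • (x - o) ∉ J) :
    ∃ (p q : E) (x y : ℝ), p 0 * q 1 - p 1 * q 0 ≠ 0 ∧ ∀ k, o + W p q x y k ∈ J := by
  classical
  obtain ⟨ρ, L, r1, r2, r3, r4, r5, r6⟩ := exists_gauge hJ ho hr
  set U := connectedComponentIn Jᶜ o with hU
  have hne : J.Nonempty := by
    by_contra h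
    rw [hU, not_nonempty_iff_eq_empty.1 h, compl_empty, connectedComponentIn_univ,
      PreconnectedSpace.connectedComponent_eq_univ] at hb
    exact NormedSpace.unbounded_univ ℝ E hb
  have hcl := hJ.isClosed
  have hop : ∀ z, IsOpen (connectedComponentIn Jᶜ z) := fun z =>
    hcl.isOpen_compl.connectedComponentIn
  have hfr : frontier U ⊆ J := fun z hz => by
    by_contra h
    obtain ⟨v, v1, v2⟩ := mem_closure_iff.1 hz.1 _ (hop z) (mem_connectedComponentIn h)
    have : z ∈ U := by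
      rw [hU, connectedComponentIn_eq v2, ← connectedComponentIn_eq v1]
      exact mem_connectedComponentIn h
    exact hz.2 ((hop o).interior_eq.symm ▸ this)
  have hc : Continuous fun z => if z ∈ U then -infDist z J else infDist z J :=
    continuous_if (fun z hz => by rw [infDist_zero_of_mem (hfr hz), neg_zero])
      (continuous_infDist_pt J).neg.continuousOn (continuous_infDist_pt J).continuousOn
  have hpre : ∀ (w : E) (S : Set ℝ), IsPreconnected S →
      IsPreconnected ((fun t : ℝ => o + t • w) '' S) := fun w S hS =>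
    hS.image _ (by fun_prop)
  obtain ⟨p, q, x, y, hd, h⟩ := Dat.core (ρ := ρ) (L := L)
    (φ := fun w => if o + w ∈ U then -infDist (o + w) J else infDist (o + w) J)
    ⟨r1, hc.comp (continuous_const_add o), r2, r3, r4, r5, fun w hw => by
      have h0 : 0 ≤ ρ w := by
        by_cases e : w = 0
        · simpa [e] using (r2 0 le_rfl 0).ge
        · exact (r5 w e).le
      have hs : (fun t : ℝ => o + t • w) '' Icc 0 1 ⊆ Jᶜ := by
        rintro _ ⟨t, ht, rfl⟩ hj
        have := (r6 _ hj).1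
        rw [r2 t ht.1] at this
        nlinarith [ht.1, ht.2]
      have hw1 : o + w ∈ (fun t : ℝ => o + t • w) '' Icc 0 1 := ⟨1, by simp, by simp⟩
      rw [if_pos ((hpre w _ isPreconnected_Icc).subset_connectedComponentIn
        ⟨0, by simp, by simp⟩ hs hw1), neg_lt_zero]
      exact (hcl.notMem_iff_infDist_pos hne).1 (hs hw1), fun w hw => by
      have hs : (fun t : ℝ => o + t • w) '' Ici 1 ⊆ Jᶜ := by
        rintro _ ⟨t, ht, rfl⟩ hj
        have ht' : 1 ≤ t := ht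
        have := (r6 _ hj).2
        rw [r2 t (by linarith)] at this
        nlinarith
      have hw1 : o + w ∈ (fun t : ℝ => o + t • w) '' Ici 1 := ⟨1, by simp, by simp⟩
      rw [if_neg]
      · exact (hcl.notMem_iff_infDist_pos hne).1 (hs hw1)
      intro hin
      have h1 := (hpre w _ isPreconnected_Ici).subset_connectedComponentIn hw1 hs
      rw [← connectedComponentIn_eq hin] at h1
      obtain ⟨C, hC⟩ := hb.exists_norm_le
      have w0 : 0 < ‖w‖ := norm_pos_iff.2 fun e => by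
        have := r2 0 le_rfl 0
        rw [e] at hw
        simp only [smul_zero, zero_mul] at this
        linarith
      have C0 : ‖o‖ ≤ C := hC o (mem_connectedComponentIn ho)
      have t0 : 0 ≤ 2 * C / ‖w‖ := div_nonneg (by linarith [norm_nonneg o]) w0.le
      have h2 := hC _ (h1 ⟨1 + 2 * C / ‖w‖, by simpa using t0, rfl⟩)
      have h3 := norm_sub_le (o + (1 + 2 * C / ‖w‖) • w) o
      rw [add_sub_cancel_left, norm_smul, Real.norm_eq_abs, abs_of_nonneg (by linarith), add_mul,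
        div_mul_cancel₀ _ w0.ne'] at h3
      linarith⟩
  refine ⟨p, q, x, y, hd, fun k => (hcl.mem_iff_infDist_zero hne).2 ?_⟩
  have := h k
  split_ifs at this
  · exact neg_eq_zero.1 this
  · exact this

lemma cos_sin (k : Fin 6) : Real.cos ((k : ℕ) * Real.pi / 3) = cx k + cy k / 2 ∧
    Real.sin ((k : ℕ) * Real.pi / 3) = cy k * √3 / 2 := by
  have c1 := Real.cos_pi_div_three
  have s1 := Real.sin_pi_div_three
  fin_cases k
  · simp [cx, cy]
  · simp [cx, cy, c1, s1]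
  · have e : ((2 : ℕ) : ℝ) * Real.pi / 3 = Real.pi - Real.pi / 3 := by push_cast; ring
    simp only [e, Real.cos_pi_sub, Real.sin_pi_sub, c1, s1]
    norm_num [cx, cy]
  · have e : ((3 : ℕ) : ℝ) * Real.pi / 3 = Real.pi := by push_cast; ring
    simp only [e, Real.cos_pi, Real.sin_pi]
    norm_num [cx, cy]
  · have e : ((4 : ℕ) : ℝ) * Real.pi / 3 = Real.pi / 3 + Real.pi := by push_cast; ring
    simp only [e, Real.cos_add_pi, Real.sin_add_pi, c1, s1]
    norm_num [cx, cy]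
    ring
  · have e : ((5 : ℕ) : ℝ) * Real.pi / 3 = 2 * Real.pi - Real.pi / 3 := by push_cast; ring
    simp only [e, Real.cos_two_pi_sub, Real.sin_two_pi_sub, c1, s1]
    norm_num [cx, cy]
    ring

theorem ray {J : Set E} {o : E} (hJ : IsCompact J) (ho : o ∉ J)
    (hb : Bornology.IsBounded (connectedComponentIn Jᶜ o))
    (hr : ∀ x ∈ J, ∀ t : ℝ, 2 ≤ t → o + t • (x - o) ∉ J) :
    ∃ (M : Matrix (Fin 2) (Fin 2) ℝ) (b : E), M.det ≠ 0 ∧ ∀ k : Fin 6,
      M *ᵥ ![Real.cos ((k : ℕ) * Real.pi / 3), Real.sin ((k : ℕ) * Real.pi / 3)] + b ∈ J := by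
  obtain ⟨p, q, x, y, hd, h⟩ := exists_lattice hJ ho hb hr
  have s3 : √3 ≠ 0 := by positivity
  refine ⟨!![p 0, (2 * q 0 - p 0) / √3; p 1, (2 * q 1 - p 1) / √3], o - (x • p + y • q), ?_,
    fun k => ?_⟩
  · rw [Matrix.det_fin_two_of]
    intro e
    apply hd
    field_simp at e
    linarith
  · convert h k using 1
    rw [(cos_sin k).1, (cos_sin k).2]
    funext i
    fin_cases i <;> simp [W] <;> field_simp <;> ring

end Pool.Agent.P.MP_e1e3b8_co.R
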